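import Mathlib

/-!
# A balanced tripartite graph with fewer than `4 t ^ 3` triangles

`t = 4`, `n = 20`.  The classes are split as `X ∪ Y` (`7 + 13` vertices), `W ∪ Z` (`7 + 13`
vertices) and `P ∪ R ∪ Q` (`4 + 4 + 12` vertices).  The pairs `X Z`, `X W`, `Y W`, `Z Q`, `Z R`,
`W R`, `P X`, `P Y`, `Q Y` are complete, `Z P` and `Y R` carry `16` edges each (four at every vertex
of `P` and `R`, at least one at every vertex of `Z` and `Y`), and there are no other edges.  The
minimum degree is `24` and there are `2 * 7 * 16 = 224 < 256` triangles.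
-/

set_option autoImplicit false

namespace Pool.Agent.Results.MP_e2add3_co.FewerTriangles

/-- A graph on the vertex set `Fin 3 × Fin n` is tripartite with classes `{i} × Fin n` if its edges
join only vertices in different classes. -/
def Tripartite {n : ℕ} (G : SimpleGraph (Fin 3 × Fin n)) : Prop :=
  ∀ u v, G.Adj u v → u.1 ≠ v.1

/-- the sparse bipartite graph -/
def sparse (j p : ℕ) : Bool := (p == j / 4) || (p == 3 && decide (j < 3))

/-- edges between the classes `0` and `1` -/
def e01 (a b : ℕ) : Bool := decide (a < 7) || decide (b < 7)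

/-- edges between the classes `1` and `2` -/
def e12 (b c : ℕ) : Bool :=
  if c < 4 then decide (7 ≤ b) && sparse (b - 7) c
  else if c < 8 then true
  else decide (7 ≤ b)

/-- edges between the classes `0` and `2` -/
def e02 (a c : ℕ) : Bool :=
  if c < 4 then true
  else if c < 8 then decide (7 ≤ a) && sparse (a - 7) (c - 4)
  else decide (7 ≤ a)

/-- adjacency -/
def e (u v : Fin 3 × Fin 20) : Bool :=
  match u.1, v.1 with
  | 0, 1 => e01 u.2.val v.2.val
  | 1, 0 => e01 v.2.val u.2.val
  | 1, 2 => e12 u.2.val v.2.val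
  | 2, 1 => e12 v.2.val u.2.val
  | 0, 2 => e02 u.2.val v.2.val
  | 2, 0 => e02 v.2.val u.2.val
  | 0, 0 => false
  | 1, 1 => false
  | 2, 2 => false

theorem e_symm : ∀ u v, e u v = e v u := by decide +kernel

theorem e_part : ∀ u v, e u v = true → u.1 ≠ v.1 := by decide +kernel

/-- The graph. -/
def G : SimpleGraph (Fin 3 × Fin 20) where
  Adj u v := e u v = true
  symm := ⟨fun u v h => by rw [e_symm]; exact h⟩
  loopless := ⟨fun u h => e_part u u h rfl⟩

theorem deg : ∀ v : Fin 3 × Fin 20, 24 ≤ (Finset.univ.filter fun w => e v w = true).card := by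
  decide +kernel

theorem triples : (Finset.univ.filter fun p : Fin 20 × Fin 20 × Fin 20 =>
    e (0, p.1) (1, p.2.1) = true ∧ e (1, p.2.1) (2, p.2.2) = true ∧
      e (0, p.1) (2, p.2.2) = true).card = 224 := by
  decide +kernel

attribute [local irreducible] e in
theorem clique_sub : G.cliqueSet 3 ⊆
    (fun p : Fin 20 × Fin 20 × Fin 20 =>
      ({(0, p.1), (1, p.2.1), (2, p.2.2)} : Finset (Fin 3 × Fin 20))) ''
      ((Finset.univ.filter fun p : Fin 20 × Fin 20 × Fin 20 =>
        e (0, p.1) (1, p.2.1) = true ∧ e (1, p.2.1) (2, p.2.2) = true ∧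
          e (0, p.1) (2, p.2.2) = true : Finset _) : Set (Fin 20 × Fin 20 × Fin 20)) := by
  intro s hs
  rw [SimpleGraph.mem_cliqueSet_iff, SimpleGraph.is3Clique_iff] at hs
  obtain ⟨⟨i, a⟩, ⟨j, b⟩, ⟨k, c⟩, h1, h2, h3, rfl⟩ := hs
  have h1' : e (i, a) (j, b) = true := h1
  have h2' : e (i, a) (k, c) = true := h2
  have h3' : e (j, b) (k, c) = true := h3
  have n1 := e_part _ _ h1'
  have n2 := e_part _ _ h2'
  have n3 := e_part _ _ h3'
  simp only at n1 n2 n3
  have key : ∀ a b c : Fin 20, e (0, a) (1, b) = true → e (1, b) (2, c) = true →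
      e (0, a) (2, c) = true → ∀ s : Finset (Fin 3 × Fin 20), s = {(0, a), (1, b), (2, c)} →
      s ∈ (fun p : Fin 20 × Fin 20 × Fin 20 =>
      ({(0, p.1), (1, p.2.1), (2, p.2.2)} : Finset (Fin 3 × Fin 20))) ''
      ((Finset.univ.filter fun p : Fin 20 × Fin 20 × Fin 20 =>
        e (0, p.1) (1, p.2.1) = true ∧ e (1, p.2.1) (2, p.2.2) = true ∧
          e (0, p.1) (2, p.2.2) = true : Finset _) : Set (Fin 20 × Fin 20 × Fin 20)) := by
    intro a b c x y z s hs
    refine ⟨(a, b, c), ?_, hs.symm⟩
    simp only [Finset.coe_filter, Finset.mem_univ, true_and, Set.mem_ofPred_eq]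
    exact ⟨x, y, z⟩
  fin_cases i <;> fin_cases j <;> fin_cases k <;> first
    | exact absurd rfl n1
    | exact absurd rfl n2
    | exact absurd rfl n3
    | exact key a b c h1' h3' h2' _ rfl
    | exact key a c b h2' ((e_symm _ _).trans h3') h1' _ (by
        ext x; simp only [Finset.mem_insert, Finset.mem_singleton]; tauto)
    | exact key b a c ((e_symm _ _).trans h1') h2' h3' _ (by
        ext x; simp only [Finset.mem_insert, Finset.mem_singleton]; tauto)
    | exact key c a b ((e_symm _ _).trans h2') h1' ((e_symm _ _).trans h3') _ (by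
        ext x; simp only [Finset.mem_insert, Finset.mem_singleton]; tauto)
    | exact key b c a h3' ((e_symm _ _).trans h2') ((e_symm _ _).trans h1') _ (by
        ext x; simp only [Finset.mem_insert, Finset.mem_singleton]; tauto)
    | exact key c b a ((e_symm _ _).trans h3') ((e_symm _ _).trans h1') ((e_symm _ _).trans h2') _
        (by ext x; simp only [Finset.mem_insert, Finset.mem_singleton]; tauto)

/-- **There are `t ≥ 1`, `n ≥ 5 t` and a tripartite graph with classes of size `n` and minimum degree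
at least `n + t` which has fewer than `4 t ^ 3` triangles.** -/
theorem result : ∃ t n : ℕ, 1 ≤ t ∧ 5 * t ≤ n ∧ ∃ G : SimpleGraph (Fin 3 × Fin n),
    Tripartite G ∧ (∀ v, n + t ≤ (G.neighborSet v).ncard) ∧ (G.cliqueSet 3).ncard < 4 * t ^ 3 := by
  refine ⟨4, 20, by norm_num, by norm_num, G, fun u v h => e_part u v h, fun v => ?_, ?_⟩
  · have : G.neighborSet v = ((Finset.univ.filter fun w => e v w = true : Finset _) : Set _) := by
      ext w
      simp only [Finset.coe_filter, Finset.mem_univ, true_and, Set.mem_ofPred_eq]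
      rfl
    rw [this, Set.ncard_coe_finset]
    exact deg v
  · have h1 := Set.ncard_le_ncard clique_sub (Set.toFinite _)
    have h2 := Set.ncard_image_le (f := (fun p : Fin 20 × Fin 20 × Fin 20 =>
      ({(0, p.1), (1, p.2.1), (2, p.2.2)} : Finset (Fin 3 × Fin 20))))
      (Set.toFinite ((Finset.univ.filter fun p : Fin 20 × Fin 20 × Fin 20 =>
        e (0, p.1) (1, p.2.1) = true ∧ e (1, p.2.1) (2, p.2.2) = true ∧
          e (0, p.1) (2, p.2.2) = true : Finset _) : Set (Fin 20 × Fin 20 × Fin 20)))
    rw [Set.ncard_coe_finset, triples] at h2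
    calc (G.cliqueSet 3).ncard ≤ 224 := h1.trans h2
      _ < 4 * 4 ^ 3 := by norm_num

end Pool.Agent.Results.MP_e2add3_co.FewerTriangles
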